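import Pool.Agent.H17.VG.TargetsB

/-! Linear algebra for the rows IM, IQ, PS, BB. -/

set_option autoImplicit false

namespace Pool.Agent.H66.VG

open MvPolynomial SC Pool.Agent.H27.LV Pool.Agent.H17.VG

section Abstract

variable {K V A B : Type*} [Field K] [AddCommGroup V] [Module K V] [AddCommGroup A] [Module K A]
  [AddCommGroup B] [Module K B]

/-- comparison of dimensions -/
theorem key (α : V →ₗ[K] A) (β : V →ₗ[K] B) (U N : Submodule K A) (Z P : Submodule K B)
    [FiniteDimensional K U] [FiniteDimensional K Z] [FiniteDimensional K P] (hNU : N ≤ U)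
    (h1 : ∀ v, α v ∈ U) (h2 : ∀ v, α v ∈ N → β v ∈ Z) (h3 : ∀ p ∈ P, ∃ v, β v = p) :
    Module.finrank K P + Module.finrank K N ≤ Module.finrank K Z + Module.finrank K U := by
  -- a section
  let β' : (P.comap β) →ₗ[K] P := β.restrict (fun v hv => hv)
  have hβ' : Function.Surjective β' := by
    rintro ⟨p, hp⟩
    obtain ⟨v, hv⟩ := h3 p hp
    refine ⟨⟨v, ?_⟩, Subtype.ext ?_⟩
    · rw [Submodule.mem_comap, hv]; exact hp
    · exact hv
  obtain ⟨s, hs⟩ := β'.exists_rightInverse_of_surjective (LinearMap.range_eq_top.2 hβ')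
  have hs' : ∀ p : P, β (s p : V) = p := by
    intro p
    have := LinearMap.congr_fun hs p
    exact congrArg Subtype.val this
  let γ : P →ₗ[K] A ⧸ N := N.mkQ ∘ₗ α ∘ₗ (P.comap β).subtype ∘ₗ s
  have hγ : ∀ p, γ p = N.mkQ (α (s p : V)) := fun p => rfl
  let δ : U →ₗ[K] A ⧸ N := N.mkQ ∘ₗ U.subtype
  have hδ : ∀ u, δ u = N.mkQ (u : A) := fun u => rfl
  have hrange : LinearMap.range γ ≤ LinearMap.range δ := by
    rintro _ ⟨p, rfl⟩
    exact ⟨⟨α (s p : V), h1 _⟩, by rw [hδ, hγ]⟩
  have e1 := LinearMap.finrank_range_add_finrank_ker γ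
  have e2 := LinearMap.finrank_range_add_finrank_ker δ
  have e3 : Module.finrank K (LinearMap.range γ) ≤ Module.finrank K (LinearMap.range δ) :=
    Submodule.finrank_mono hrange
  have e4 : Module.finrank K (LinearMap.ker γ) ≤ Module.finrank K Z := by
    let ι : LinearMap.ker γ →ₗ[K] Z := (P.subtype ∘ₗ (LinearMap.ker γ).subtype).codRestrict Z (by
      rintro ⟨p, hp⟩
      rw [LinearMap.mem_ker, hγ, Submodule.mkQ_apply, Submodule.Quotient.mk_eq_zero] at hp
      have := h2 _ hp
      rw [hs'] at this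
      exact this)
    have hι : Function.Injective ι := by
      intro p q hpq
      apply Subtype.ext
      have h5 : ((ι p : Z) : B) = ((ι q : Z) : B) := by rw [hpq]
      exact Subtype.ext h5
    exact LinearMap.finrank_le_finrank_of_injective hι
  have e5 : Module.finrank K (LinearMap.ker δ) = Module.finrank K N := by
    have hk : LinearMap.ker δ = N.comap U.subtype := by
      ext u
      rw [LinearMap.mem_ker, hδ, Submodule.mkQ_apply, Submodule.Quotient.mk_eq_zero,
        Submodule.mem_comap]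
      rfl
    rw [hk]
    exact LinearEquiv.finrank_eq (Submodule.comapSubtypeEquivOfLe hNU)
  omega

end Abstract

section Op

variable {R K : Type} [Field R] [Field K] [Algebra R K] {n : ℕ}

/-- `opF` as a linear map -/
noncomputable def opFL (hOP : T_OP) (F : MvPolynomial (Fin (n + 1)) K) :
    Op R K n →ₗ[K] MvPolynomial (Fin (n + 1)) K where
  toFun τ := opF τ F
  map_add' τ τ' := by
    have := (hOP R K n 0 τ τ' F F 1 1 0).2.2.1
    simpa using this
  map_smul' a τ := by
    have := (hOP R K n 0 τ 0 F F a 0 0).2.2.1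
    simpa [MvPolynomial.smul_eq_C_mul] using this

lemma opFL_apply (hOP : T_OP) (F : MvPolynomial (Fin (n + 1)) K) (τ : Op R K n) :
    opFL hOP F τ = opF τ F := rfl

/-- `opV` as a linear map -/
noncomputable def opVL (hOP : T_OP) (x : Fin (n + 1) → K) : Op R K n →ₗ[K] (Fin (n + 1) → K) where
  toFun τ := opV τ x
  map_add' τ τ' := by
    have := (hOP R K n 0 τ τ' 0 0 1 1 x).2.2.2.1
    simpa using this
  map_smul' a τ := by
    have := (hOP R K n 0 τ 0 0 0 a 0 x).2.2.2.1
    simpa using this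

lemma opVL_apply (hOP : T_OP) (x : Fin (n + 1) → K) (τ : Op R K n) :
    opVL hOP x τ = opV τ x := rfl

/-- `res` as a linear map -/
noncomputable def resL (x y : Fin (n + 1) → K) :
    MvPolynomial (Fin (n + 1)) K →ₗ[K] Polynomial K :=
  (aeval (fun i => Polynomial.C (x i) + Polynomial.C (y i) * Polynomial.X) :
    MvPolynomial (Fin (n + 1)) K →ₐ[K] Polynomial K).toLinearMap

lemma resL_apply (x y : Fin (n + 1) → K) (G : MvPolynomial (Fin (n + 1)) K) :
    resL x y G = res x y G := rfl

lemma res_zero (x y : Fin (n + 1) → K) : res x y (0 : MvPolynomial (Fin (n + 1)) K) = 0 :=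
  map_zero (resL x y)

/-- `dir` as a linear map in the polynomial -/
noncomputable def dirL (w : Fin (n + 1) → K) :
    MvPolynomial (Fin (n + 1)) K →ₗ[K] MvPolynomial (Fin (n + 1)) K :=
  ∑ i, (LinearMap.mulLeft K (C (w i))) ∘ₗ (pderiv i).toLinearMap

lemma dirL_apply (w : Fin (n + 1) → K) (G : MvPolynomial (Fin (n + 1)) K) :
    dirL w G = dir w G := by
  simp [dirL, dir, LinearMap.sum_apply]

lemma opF_D (F : MvPolynomial (Fin (n + 1)) K) (D : Derivation R K K) :
    opF ((D, 0) : Op R K n) F = cD D F := by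
  simp [opF]

lemma opV_D (x : Fin (n + 1) → K) (D : Derivation R K K) :
    opV ((D, 0) : Op R K n) x = fun i => D (x i) := by
  funext i
  simp [opV]

lemma mem_Ut (F : MvPolynomial (Fin (n + 1)) K) (x : Fin (n + 1) → K)
    (W : Submodule K (MvPolynomial (Fin (n + 1)) K)) (τ : Op R K n) (h : opF τ F ∈ W) :
    opV τ x ∈ Ut R F x W := Submodule.subset_span (Or.inl ⟨τ, h, rfl⟩)

lemma self_mem_Ut (F : MvPolynomial (Fin (n + 1)) K) (x : Fin (n + 1) → K)
    (W : Submodule K (MvPolynomial (Fin (n + 1)) K)) : x ∈ Ut R F x W :=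
  Submodule.subset_span (Or.inr rfl)

lemma D_mem_Ut {d : ℕ} {F : MvPolynomial (Fin (n + 1)) K} {D : Derivation R K K}
    (hS : Sys d F D) (x : Fin (n + 1) → K) (W : Submodule K (MvPolynomial (Fin (n + 1)) K)) :
    (fun i => D (x i)) ∈ Ut R F x W := by
  have := mem_Ut F x W ((D, 0) : Op R K n) (by rw [opF_D, hS.base]; exact W.zero_mem)
  rwa [opV_D] at this

/-- the plane spanned by `x` and its derivative -/
lemma finrank_pair {x y : Fin (n + 1) → K} (h : Indep x y) :
    Module.finrank K (Submodule.span K ({x, y} : Set (Fin (n + 1) → K))) = 2 := by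
  have h1 : Module.finrank K (Submodule.span K (Set.range ![x, y])) = 2 := by
    have := finrank_span_eq_card h
    simpa using this
  have h2 : Set.range ![x, y] = {x, y} := by
    simp [Matrix.range_cons, Set.pair_comm]
  rwa [h2] at h1

lemma pair_le_Ut {d : ℕ} {F : MvPolynomial (Fin (n + 1)) K} {D : Derivation R K K}
    (hS : Sys d F D) (x : Fin (n + 1) → K) (W : Submodule K (MvPolynomial (Fin (n + 1)) K)) :
    Submodule.span K ({x, fun i => D (x i)} : Set (Fin (n + 1) → K)) ≤ Ut R F x W := by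
  rw [Submodule.span_le]
  rintro w (rfl | rfl)
  · exact self_mem_Ut F _ W
  · exact D_mem_Ut hS x W

/-- subtraction of a multiple of `(D, 0)` -/
lemma adjust (hOP : T_OP) {d : ℕ} {F : MvPolynomial (Fin (n + 1)) K} {D : Derivation R K K}
    (hS : Sys d F D) (x : Fin (n + 1) → K) (τ : Op R K n)
    (h : opV τ x ∈ Submodule.span K ({x, fun i => D (x i)} : Set (Fin (n + 1) → K))) :
    ∃ (τ' : Op R K n) (a : K), opF τ' F = opF τ F ∧ opV τ' x = a • x := by
  obtain ⟨a, b, hab⟩ := Submodule.mem_span_pair.1 h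
  refine ⟨τ - b • ((D, 0) : Op R K n), a, ?_, ?_⟩
  · rw [← opFL_apply hOP, map_sub, map_smul, opFL_apply, opFL_apply, opF_D, hS.base, smul_zero,
      sub_zero]
  · rw [← opVL_apply hOP, map_sub, map_smul, opVL_apply, opVL_apply, opV_D, ← hab]
    simp

lemma mem_degreeLT {e : ℕ} {P : Polynomial K} :
    P ∈ Polynomial.degreeLT K (e + 1) ↔ P.natDegree ≤ e := by
  rw [Polynomial.mem_degreeLT, Polynomial.degree_lt_iff_coeff_zero, Polynomial.natDegree_le_iff_coeff_eq_zero]
  exact ⟨fun h m hm => h m (by omega), fun h m hm => h m (by omega)⟩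

instance (e : ℕ) : FiniteDimensional K (Polynomial.degreeLT K e) :=
  Module.Finite.equiv (Polynomial.degreeLTEquiv K e).symm

lemma finrank_degreeLT (e : ℕ) : Module.finrank K (Polynomial.degreeLT K e) = e := by
  rw [LinearEquiv.finrank_eq (Polynomial.degreeLTEquiv K e)]
  simp

end Op

end Pool.Agent.H66.VG
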