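import Pool.Agent.H17.VG.TargetsG

/-! Row G1: derivations with given values on a transcendence basis. -/

set_option autoImplicit false

namespace Pool.Agent.H66.VG

open MvPolynomial SC Pool.Agent.H27.LV Pool.Agent.H17.VG

open TensorProduct in
theorem g1 : T_G1 := by
  intro R L t _ _ _ _ v hb w
  haveI : CharZero L := charZero_of_injective_algebraMap (algebraMap R L).injective
  let alg : Algebra (MvPolynomial t R) L := (aeval v).toAlgebra
  have halg : ∀ p : MvPolynomial t R, algebraMap (MvPolynomial t R) L p = aeval v p := fun p => rfl
  have st : IsScalarTower R (MvPolynomial t R) L := IsScalarTower.of_algebraMap_eq fun q => by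
    rw [halg, MvPolynomial.algebraMap_eq, aeval_C]
  have hinj : Function.Injective (algebraMap (MvPolynomial t R) L) := hb.1
  have hf : FaithfulSMul (MvPolynomial t R) L := (faithfulSMul_iff_algebraMap_injective _ _).2 hinj
  have hal : Algebra.IsAlgebraic (MvPolynomial t R) L := by
    have h1 := hb.isAlgebraic
    exact h1.of_ringHom_of_comp_eq (hb.1.aevalEquiv : MvPolynomial t R ≃+* _) (RingHom.id L)
      (RingEquiv.surjective _) Function.injective_id (by
        ext p
        · simp
          rw [halg, aeval_C]
        · exact hb.1.algebraMap_aevalEquiv _)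
  let algF : Algebra (FractionRing (MvPolynomial t R)) L := FractionRing.liftAlgebra _ _
  have stF : IsScalarTower (MvPolynomial t R) (FractionRing (MvPolynomial t R)) L :=
    FractionRing.isScalarTower_liftAlgebra _ _
  have halF : Algebra.IsAlgebraic (FractionRing (MvPolynomial t R)) L :=
    (IsFractionRing.comap_isAlgebraic_iff (A := MvPolynomial t R)
      (K := FractionRing (MvPolynomial t R)) (C := L)).1 hal
  haveI : CharZero (FractionRing (MvPolynomial t R)) :=
    charZero_of_injective_algebraMap (algebraMap R (FractionRing (MvPolynomial t R))).injective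
  have et1 : Algebra.FormallyEtale (MvPolynomial t R) (FractionRing (MvPolynomial t R)) :=
    Algebra.FormallyEtale.of_isLocalization (nonZeroDivisors (MvPolynomial t R))
  have et2 : Algebra.FormallyEtale (FractionRing (MvPolynomial t R)) L :=
    Algebra.FormallyEtale.of_isSeparable _ _
  have et : Algebra.FormallyEtale (MvPolynomial t R) L :=
    Algebra.FormallyEtale.comp (MvPolynomial t R) (FractionRing (MvPolynomial t R)) L
  let D0 : Derivation R (MvPolynomial t R) L := mkDerivation R w
  let l : L ⊗[MvPolynomial t R] (Ω[MvPolynomial t R⁄R]) →ₗ[L] L :=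
    D0.liftKaehlerDifferential.liftBaseChange L
  let e := KaehlerDifferential.tensorKaehlerEquivOfFormallyEtale R (MvPolynomial t R) L
  refine ⟨(l ∘ₗ e.symm.toLinearMap).compDer (KaehlerDifferential.D R L), fun i => ?_⟩
  have h2 : v i = algebraMap (MvPolynomial t R) L (X i) := by rw [halg, aeval_X]
  change l (e.symm (KaehlerDifferential.D R L (v i))) = w i
  rw [h2]
  rw [KaehlerDifferential.tensorKaehlerEquivOfFormallyEtale_symm_D_algebraMap]
  rw [LinearMap.liftBaseChange_tmul, one_smul, Derivation.liftKaehlerDifferential_comp_D]
  exact mkDerivation_X R w i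

end Pool.Agent.H66.VG
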