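import Pool.Agent.H17.VG.TargetsF

/-! Row VE: points of the affine variety. -/

set_option autoImplicit false

namespace Pool.Agent.H66.VG

open MvPolynomial SC Pool.Agent.H27.LV Pool.Agent.H17.VG

/-- exchange of a variable -/
lemma exch {n d : ℕ} (M : Mon (n + 1) d) (j p : Fin (n + 1)) (hj : 1 ≤ M.1 j) :
    ∃ M' : Mon (n + 1) d, ∀ i, M'.1 i + (if i = j then 1 else 0) =
      M.1 i + (if i = p then 1 else 0) := by
  have key : ∀ i, (M.1 i + (if i = p then 1 else 0) - (if i = j then 1 else 0)) +
      (if i = j then 1 else 0) = M.1 i + (if i = p then 1 else 0) := by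
    intro i
    by_cases hi : i = j
    · subst hi
      simp only [if_true]
      omega
    · simp [hi]
  refine ⟨⟨fun i => M.1 i + (if i = p then 1 else 0) - (if i = j then 1 else 0), ?_⟩, key⟩
  have h1 := Finset.sum_congr rfl (fun i (_ : i ∈ (Finset.univ : Finset (Fin (n + 1)))) => key i)
  rw [Finset.sum_add_distrib, Finset.sum_add_distrib, M.2, Finset.sum_ite_eq' Finset.univ j,
    Finset.sum_ite_eq' Finset.univ p] at h1
  simp only [Finset.mem_univ, if_true] at h1
  exact Nat.add_right_cancel h1

lemma exists_other {n d : ℕ} (M : Mon (n + 1) d) (p : Fin (n + 1)) (h : M.1 p ≠ d) :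
    ∃ j, j ≠ p ∧ 1 ≤ M.1 j := by
  by_contra hcon
  push Not at hcon
  apply h
  refine Eq.trans (Eq.symm ?_) M.2
  apply Finset.sum_eq_single p
  · intro j _ hj
    have := hcon j hj
    omega
  · simp

lemma le_deg {n d : ℕ} (M : Mon (n + 1) d) (p : Fin (n + 1)) : M.1 p ≤ d := by
  exact (Finset.single_le_sum (f := M.1) (fun _ _ => Nat.zero_le _)
    (Finset.mem_univ p)).trans M.2.le

theorem ve : T_VE := by
  classical
  intro k K _ _ _ n d c z hd hz
  have hV : ∀ M1 M2 M3 M4 : Mon (n + 1) d, (∀ i, M1.1 i + M2.1 i = M3.1 i + M4.1 i) →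
      z M1 * z M2 = z M3 * z M4 := by
    intro M1 M2 M3 M4 h
    have := hz (X M1 * X M2 - X M3 * X M4) (Or.inl ⟨M1, M2, M3, M4, h, rfl⟩)
    simp only [map_sub, map_mul, aeval_X] at this
    exact sub_eq_zero.1 this
  have hN : ∑ M, algebraMap k K (c M) * z M = 1 := by
    have := hz (∑ M, C (c M) * X M - 1) (Or.inr rfl)
    simp only [map_sub, map_sum, map_mul, aeval_X, aeval_C, map_one] at this
    exact sub_eq_zero.1 this
  have hne : ∃ M, z M ≠ 0 := by
    by_contra hcon
    push Not at hcon
    simp [hcon] at hN
  -- a pure power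
  obtain ⟨P, p, hPp, hP⟩ : ∃ (P : Mon (n + 1) d) (p : Fin (n + 1)), P.1 p = d ∧ z P ≠ 0 := by
    obtain ⟨M0, hM0⟩ := hne
    obtain ⟨⟨M, p⟩, hm1, hm2⟩ := Finset.exists_max_image
      ((Finset.univ : Finset (Mon (n + 1) d × Fin (n + 1))).filter (fun q => z q.1 ≠ 0))
      (fun q => q.1.1 q.2) ⟨(M0, 0), by simpa using hM0⟩
    simp only [Finset.mem_filter, Finset.mem_univ, true_and] at hm1
    refine ⟨M, p, ?_, hm1⟩
    by_contra hMp
    obtain ⟨j, hj, hMj⟩ := exists_other M p hMp
    have hp1 : 1 ≤ M.1 p := by
      have := hm2 (M, j) (by simpa using hm1)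
      simp only at this
      omega
    obtain ⟨M', hM'⟩ := exch M j p hMj
    obtain ⟨M'', hM''⟩ := exch M p j hp1
    have h1 := hV M M M' M'' (fun i => by
      have h2 := hM' i
      have h3 := hM'' i
      omega)
    have h4 : z M' ≠ 0 := by
      intro h5
      rw [h5, zero_mul] at h1
      exact hm1 (mul_self_eq_zero.1 h1)
    have h5 := hm2 (M', p) (by simpa using h4)
    simp only at h5
    have h6 := hM' p
    simp only [if_true, if_neg (Ne.symm hj), add_zero] at h6
    omega
  have hPj : ∀ j, j ≠ p → P.1 j = 0 := by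
    intro j hj
    have h1 := P.2
    rw [← Finset.add_sum_erase Finset.univ P.1 (Finset.mem_univ p), hPp] at h1
    have h2 := Finset.single_le_sum (f := P.1) (s := Finset.univ.erase p)
      (fun _ _ => Nat.zero_le _) (Finset.mem_erase.2 ⟨hj, Finset.mem_univ j⟩)
    omega
  choose E hE using fun j => exch P p j (by omega)
  let x : Fin (n + 1) → K := fun j => z (E j) / z P
  have hEp : E p = P := by
    apply Subtype.ext
    funext i
    have := hE p i
    omega
  have hxp : x p = 1 := by
    simp only [x, hEp]
    exact div_self hP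
  have hmain : ∀ (m : ℕ) (M : Mon (n + 1) d), d - M.1 p = m → z M = z P * ∏ i, x i ^ M.1 i := by
    intro m
    induction m with
    | zero =>
      intro M hM
      have h1 : M.1 p = d := by
        have := le_deg M p
        omega
      have h2 : M = P := by
        apply Subtype.ext
        funext i
        by_cases hi : i = p
        · rw [hi, h1, hPp]
        · rw [hPj i hi]
          have h3 := M.2
          rw [← Finset.add_sum_erase Finset.univ M.1 (Finset.mem_univ p), h1] at h3
          have h4 := Finset.single_le_sum (f := M.1) (s := Finset.univ.erase p)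
            (fun _ _ => Nat.zero_le _) (Finset.mem_erase.2 ⟨hi, Finset.mem_univ i⟩)
          omega
      rw [h2, Finset.prod_eq_one, mul_one]
      intro i _
      by_cases hi : i = p
      · rw [hi, hxp, one_pow]
      · rw [hPj i hi, pow_zero]
    | succ m ih =>
      intro M hM
      obtain ⟨j, hj, hMj⟩ := exists_other M p (by omega)
      obtain ⟨M', hM'⟩ := exch M j p hMj
      have h1 := hV M P M' (E j) (fun i => by
        have h2 := hM' i
        have h3 := hE j i
        omega)
      have h6 := hM' p
      simp only [if_true, if_neg (Ne.symm hj), add_zero] at h6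
      have h7 := ih M' (by omega)
      have h8 : z M = z M' * x j := by
        simp only [x]
        rw [← mul_div_assoc, eq_div_iff hP]
        exact h1
      rw [h8, h7, mul_assoc]
      congr 1
      -- compare the products
      have h9 : (∏ i, x i ^ M'.1 i) * ∏ i, x i ^ (if i = j then 1 else 0) =
          (∏ i, x i ^ M.1 i) * ∏ i, x i ^ (if i = p then 1 else 0) := by
        rw [← Finset.prod_mul_distrib, ← Finset.prod_mul_distrib]
        refine Finset.prod_congr rfl (fun i _ => ?_)
        rw [← pow_add, ← pow_add, hM' i]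
      have h10 : ∀ q : Fin (n + 1), ∏ i, x i ^ (if i = q then 1 else 0) = x q := by
        intro q
        rw [Finset.prod_eq_single q]
        · simp
        · intro b _ hb; simp [hb]
        · simp
      rw [h10, h10, hxp, mul_one] at h9
      exact h9
  have hF : eval x (up K (frm c)) * z P = 1 := by
    have h1 : eval x (up K (frm c)) = ∑ M, algebraMap k K (c M) * ∏ i, x i ^ M.1 i := by
      unfold up frm
      rw [map_sum, map_sum]
      refine Finset.sum_congr rfl (fun M _ => ?_)
      rw [map_mul, map_C, map_mul, eval_C]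
      congr 1
      have : MvPolynomial.map (algebraMap k K) (mono k M.1) = mono K M.1 := by
        unfold mono
        rw [map_monomial, map_one]
      rw [this, eval_mono]
    rw [h1, Finset.sum_mul, ← hN]
    refine Finset.sum_congr rfl (fun M _ => ?_)
    rw [hmain _ M rfl]
    ring
  have hF0 : eval x (up K (frm c)) ≠ 0 := by
    intro h
    rw [h, zero_mul] at hF
    exact zero_ne_one hF
  refine ⟨x, p, hxp, hF0, fun M => ?_⟩
  rw [hmain _ M rfl, eq_div_iff hF0, mul_assoc, mul_comm (∏ i, x i ^ M.1 i), ← mul_assoc,
    mul_comm (z P), hF, one_mul]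

end Pool.Agent.H66.VG
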