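import Pool.Agent.H66.VG.Base

/-! Rows IM and IQ. -/

set_option autoImplicit false

namespace Pool.Agent.H66.VG

open MvPolynomial SC Pool.Agent.H27.LV Pool.Agent.H17.VG

lemma lin_homog {K : Type} [Field K] {n : ℕ} (ξ : Fin (n + 1) → K) :
    (lin ξ).IsHomogeneous 1 := by
  unfold lin
  refine MvPolynomial.IsHomogeneous.sum _ _ _ (fun i _ => ?_)
  have := (MvPolynomial.isHomogeneous_C (Fin (n + 1)) (ξ i)).mul
    (MvPolynomial.isHomogeneous_X K i)
  simpa using this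

theorem im (hOP : T_OP) (hRS : T_RS) (hRO : T_RO) (hLF : T_LF) : T_IM := by
  intro R K _ _ _ _ n e F D x y η hS hxy hxD hη Z hZf hZ
  haveI : FiniteDimensional K Z := hZf
  let V1 : Submodule K (Op R K n) := (Il e x y).comap (opFL hOP F)
  let α : V1 →ₗ[K] (Fin (n + 1) → K) := opVL hOP x ∘ₗ V1.subtype
  let β : V1 →ₗ[K] Polynomial K := resL x y ∘ₗ dirL η ∘ₗ opFL hOP F ∘ₗ V1.subtype
  have hα : ∀ v : V1, α v = opV (v : Op R K n) x := fun v => rfl
  have hβ : ∀ v : V1, β v = res x y (dir η (opF (v : Op R K n) F)) := by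
    intro v
    simp only [β, LinearMap.comp_apply, Submodule.subtype_apply, opFL_apply, dirL_apply,
      resL_apply]
  have h := key α β (Ut R F x (Il e x y))
    (Submodule.span K ({x, fun i => D (x i)} : Set (Fin (n + 1) → K))) Z
    (Polynomial.degreeLT K (e + 1)) (pair_le_Ut hS x _)
    (fun v => mem_Ut F x _ (v : Op R K n) v.2) (by
      intro v hv
      rw [hβ]
      obtain ⟨τ', a, h1, h2⟩ := adjust hOP hS x (v : Op R K n) hv
      rw [← h1]
      exact hZ _ (by rw [h1]; exact v.2) τ' a rfl h2) (by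
      intro p hp
      rw [mem_degreeLT] at hp
      obtain ⟨Q, hQ, hQp⟩ := hRO K n e x y hxy p hp
      obtain ⟨ξ, h1, h2, h3⟩ := (hLF K n x y hxy).2.2 η hη
      have hG : (lin ξ * Q).IsHomogeneous (e + 1) := by
        have h0 := (lin_homog ξ).mul hQ
        rwa [add_comm 1 e] at h0
      obtain ⟨τ, hτ⟩ := hS.surj _ hG
      refine ⟨⟨τ, ?_⟩, ?_⟩
      · rw [Submodule.mem_comap, opFL_apply, hτ]
        exact Submodule.subset_span ⟨ξ, Q, h1, h2, hQ, rfl⟩
      · rw [hβ, hτ]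
        obtain ⟨-, -, -, -, e5, e6, -⟩ := hRS K n e (lin ξ) Q η 0 ξ x y 0 0
        obtain ⟨a1, -, -, -, -⟩ := hRS K n e (dir η (lin ξ) * Q) (lin ξ * dir η Q) η 0 ξ x y 0 0
        obtain ⟨-, b2, b3, -, -⟩ := hRS K n e (dir η (lin ξ)) Q η 0 ξ x y (∑ i, ξ i * η i) 0
        obtain ⟨-, c2, -, c4, -⟩ := hRS K n e (lin ξ) (dir η Q) η 0 ξ x y 0 0
        rw [e5, a1, b2, c2, c4, h1, h2, e6, b3, h3, hQp]
        simp)
  rw [finrank_degreeLT, finrank_pair hxD] at h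
  omega

theorem iq (hOP : T_OP) (hRO : T_RO) : T_IQ := by
  intro R K _ _ _ _ n e F D x y ξ hS hxy hxD h1 h2 Z hZf hZ
  haveI : FiniteDimensional K Z := hZf
  let S1 : Submodule K (MvPolynomial (Fin (n + 1)) K × Op R K n) :=
    ((MvPolynomial.homogeneousSubmodule (Fin (n + 1)) K e).comap (LinearMap.fst K _ _)) ⊓
    LinearMap.ker (opFL hOP F ∘ₗ LinearMap.snd K _ _ -
      LinearMap.mulLeft K (lin ξ) ∘ₗ LinearMap.fst K _ _)
  have hS1 : ∀ v : MvPolynomial (Fin (n + 1)) K × Op R K n, v ∈ S1 ↔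
      v.1.IsHomogeneous e ∧ opF v.2 F = lin ξ * v.1 := by
    intro v
    rw [Submodule.mem_inf, Submodule.mem_comap, LinearMap.mem_ker, LinearMap.sub_apply,
      sub_eq_zero]
    rfl
  have hIl : ∀ v : S1, opF (v : MvPolynomial (Fin (n + 1)) K × Op R K n).2 F ∈ Il e x y := by
    intro v
    obtain ⟨h3, h4⟩ := (hS1 v).1 v.2
    rw [h4]
    exact Submodule.subset_span ⟨ξ, _, h1, h2, h3, rfl⟩
  let α : S1 →ₗ[K] (Fin (n + 1) → K) := opVL hOP x ∘ₗ LinearMap.snd K _ _ ∘ₗ S1.subtype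
  let β : S1 →ₗ[K] Polynomial K := resL x y ∘ₗ LinearMap.fst K _ _ ∘ₗ S1.subtype
  have hα : ∀ v : S1, α v = opV (v : MvPolynomial (Fin (n + 1)) K × Op R K n).2 x := fun v => rfl
  have hβ : ∀ v : S1, β v = res x y (v : MvPolynomial (Fin (n + 1)) K × Op R K n).1 := fun v => rfl
  have h := key α β (Ut R F x (Il e x y))
    (Submodule.span K ({x, fun i => D (x i)} : Set (Fin (n + 1) → K))) Z
    (Polynomial.degreeLT K (e + 1)) (pair_le_Ut hS x _)
    (fun v => mem_Ut F x _ _ (hIl v)) (by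
      intro v hv
      rw [hβ]
      obtain ⟨h3, h4⟩ := (hS1 v).1 v.2
      obtain ⟨τ', a, h5, h6⟩ := adjust hOP hS x _ hv
      exact hZ _ h3 τ' a (h5.trans h4) h6) (by
      intro p hp
      rw [mem_degreeLT] at hp
      obtain ⟨Q, hQ, hQp⟩ := hRO K n e x y hxy p hp
      have hG : (lin ξ * Q).IsHomogeneous (e + 1) := by
        have h0 := (lin_homog ξ).mul hQ
        rwa [add_comm 1 e] at h0
      obtain ⟨τ, hτ⟩ := hS.surj _ hG
      exact ⟨⟨(Q, τ), (hS1 _).2 ⟨hQ, hτ⟩⟩, hQp⟩)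
  rw [finrank_degreeLT, finrank_pair hxD] at h
  omega

end Pool.Agent.H66.VG
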