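import Pool.Agent.H66.VG.Base

/-! Rows PS and BB. -/

set_option autoImplicit false

namespace Pool.Agent.H66.VG

open MvPolynomial SC Pool.Agent.H27.LV Pool.Agent.H17.VG

theorem ps (hOP : T_OP) (hRS : T_RS) (hRO : T_RO) (hIL : T_IL) (hSU : T_SU) : T_PS := by
  intro R K _ _ _ _ n e F D x y hS hxy hF m hm
  set U := Ut R F x (Il e x y) with hU
  -- pairs
  let S1 : Submodule K (Polynomial K × Op R K n) :=
    ((Polynomial.degreeLT K (e + 1)).comap (LinearMap.fst K _ _)) ⊓
    LinearMap.ker (resL x y ∘ₗ opFL hOP F ∘ₗ LinearMap.snd K _ _ -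
      LinearMap.mulLeft K Polynomial.X ∘ₗ LinearMap.fst K _ _)
  have hS1 : ∀ v : Polynomial K × Op R K n, v ∈ S1 ↔
      v.1.natDegree ≤ e ∧ res x y (opF v.2 F) = Polynomial.X * v.1 := by
    intro v
    rw [Submodule.mem_inf, Submodule.mem_comap, LinearMap.mem_ker, LinearMap.sub_apply,
      sub_eq_zero, LinearMap.fst_apply, mem_degreeLT]
    rfl
  let S2 : Submodule K (Polynomial K × Op R K n) :=
    S1 ⊓ U.comap (opVL hOP x ∘ₗ LinearMap.snd K _ _)
  have hS2 : ∀ v : Polynomial K × Op R K n, v ∈ S2 ↔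
      (v.1.natDegree ≤ e ∧ res x y (opF v.2 F) = Polynomial.X * v.1) ∧ opV v.2 x ∈ U := by
    intro v
    rw [Submodule.mem_inf, hS1, Submodule.mem_comap]
    rfl
  have hYl : ∀ P, P ∈ Yl (R := R) e F x y U ↔ P.natDegree ≤ e ∧ ∃ τ : Op R K n,
      res x y (opF τ F) = Polynomial.X * P ∧ opV τ x ∈ U := by
    intro P
    constructor
    · intro hP
      have h1 : Yl (R := R) e F x y U ≤ S2.map (LinearMap.fst K _ _) := by
        unfold Yl
        rw [Submodule.span_le]
        rintro P ⟨h2, τ, h3, h4⟩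
        exact ⟨(P, τ), (hS2 _).2 ⟨⟨h2, h3⟩, h4⟩, rfl⟩
      obtain ⟨v, hv, rfl⟩ := h1 hP
      obtain ⟨⟨h2, h3⟩, h4⟩ := (hS2 v).1 hv
      exact ⟨h2, v.2, h3, h4⟩
    · intro hP
      exact Submodule.subset_span hP
  have hle : Yl (R := R) e F x y U ≤ Polynomial.degreeLT K (e + 1) := by
    intro P hP
    rw [mem_degreeLT]
    exact ((hYl P).1 hP).1
  have hfd : FiniteDimensional K (Yl (R := R) e F x y U) :=
    Submodule.finiteDimensional_of_le hle
  refine ⟨fun P hP => (hYl P).1 hP, hfd, ?_⟩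
  let α : S1 →ₗ[K] Polynomial K := LinearMap.fst K _ _ ∘ₗ S1.subtype
  let β : S1 →ₗ[K] (Fin (n + 1) → K) ⧸ U :=
    U.mkQ ∘ₗ opVL hOP x ∘ₗ LinearMap.snd K _ _ ∘ₗ S1.subtype
  have hα : ∀ v : S1, α v = (v : Polynomial K × Op R K n).1 := fun v => rfl
  have hβ : ∀ v : S1, β v = U.mkQ (opV (v : Polynomial K × Op R K n).2 x) := fun v => rfl
  have h := key α β (Polynomial.degreeLT K (e + 1)) (Yl (R := R) e F x y U) ⊥ ⊤ hle
    (by
      intro v
      rw [hα, mem_degreeLT]
      exact ((hS1 _).1 v.2).1) (by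
      intro v hv
      rw [hα] at hv
      obtain ⟨h1, h2⟩ := (hS1 _).1 v.2
      obtain ⟨h3, τ', h4, h5⟩ := (hYl _).1 hv
      rw [hβ, Submodule.mem_bot, Submodule.mkQ_apply, Submodule.Quotient.mk_eq_zero]
      have h6 : opF ((v : Polynomial K × Op R K n).2 - τ') F ∈ Il e x y := by
        apply hIL K n e x y hxy
        · exact (hOP R K n (e + 1) _ 0 F F 0 0 0).2.2.2.2 hS.homog
        · rw [← opFL_apply hOP, map_sub, ← resL_apply, map_sub, opFL_apply, opFL_apply, resL_apply,
            resL_apply, h2, h4, sub_self]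
      have h7 := mem_Ut F x _ _ h6
      have h8 : opV (v : Polynomial K × Op R K n).2 x = opV ((v : Polynomial K × Op R K n).2 - τ') x + opV τ' x := by
        rw [← opVL_apply hOP, ← opVL_apply hOP, ← opVL_apply hOP, map_sub]
        abel
      rw [h8]
      exact U.add_mem h7 h5) (by
      intro q _
      obtain ⟨w, rfl⟩ := U.mkQ_surjective q
      obtain ⟨τ, c, h1, h2⟩ := hSU R K n e F x hS.homog hF w
      have h3 : (opF τ F).IsHomogeneous (e + 1) :=
        (hOP R K n (e + 1) τ 0 F F 0 0 0).2.2.2.2 hS.homog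
      have h4 := hRS K n (e + 1) (opF τ F) 0 0 0 0 x y 0 0
      obtain ⟨-, -, -, -, -, -, -, h5, -, -, -, h6, -⟩ := h4
      rw [h1] at h5
      have h7 := h6 h3
      obtain ⟨P, hP⟩ := Polynomial.X_dvd_iff.2 h5
      have hPd : P.natDegree ≤ e := by
        by_cases hP0 : P = 0
        · rw [hP0]; simp
        · rw [hP, Polynomial.natDegree_X_mul hP0] at h7
          omega
      refine ⟨⟨(P, τ), (hS1 _).2 ⟨hPd, hP⟩⟩, ?_⟩
      rw [hβ, h2]
      simp only [map_add, map_smul]
      have h8 : U.mkQ x = 0 := by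
        rw [Submodule.mkQ_apply, Submodule.Quotient.mk_eq_zero]
        exact self_mem_Ut F x _
      rw [h8, smul_zero, add_zero])
  rw [finrank_degreeLT, finrank_top, finrank_bot, zero_add] at h
  have h9 := U.finrank_quotient_add_finrank
  rw [Module.finrank_fin_fun] at h9
  omega

theorem bb (hRS : T_RS) (hJY : T_JY) (hRL : T_RL) (hDG : T_DG) (hPS : T_PS) : T_B := by
  intro R K _ _ _ _ n e F D x y hS hxy hxD hF hTR m hm h2m
  obtain ⟨-, hfd, hle⟩ := hPS R K n e F D x y hS hxy hF m hm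
  haveI := hfd
  let f : (Fin (n + 1) → K) →ₗ[K] Polynomial K :=
    { toFun := fun w => res x y (dir w F)
      map_add' := by
        intro w w'
        have h1 := (hRS K n e F F w w' 0 x y 1 1).2.2.2.2.2.2.1
        rw [one_smul, one_smul, C_1, one_mul, one_mul] at h1
        rw [h1]
        exact map_add (resL x y) _ _
      map_smul' := by
        intro a w
        have h1 := (hRS K n e F F w 0 0 x y a 0).2.2.2.2.2.2.1
        rw [zero_smul, add_zero, C_0, zero_mul, add_zero, ← MvPolynomial.smul_eq_C_mul] at h1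
        rw [h1]
        exact map_smul (resL x y) _ _ }
  have hf : ∀ w, f w = res x y (dir w F) := fun w => rfl
  let g : (Fin (n + 1) → K) →ₗ[K] Yl (R := R) e F x y (Ut R F x (Il e x y)) :=
    f.codRestrict _ (fun w => hJY R K n e F D x y w hS hxy)
  have hg : Function.Injective g := by
    rw [injective_iff_map_eq_zero]
    intro w hw
    have h1 : res x y (dir w F) = 0 := by
      have := congrArg Subtype.val hw
      exact this
    have h2 := hRL R K n e F D x y w hS hxy hxD hF m hm h2m h1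
    exact hDG K n e F x y w hS.homog hxy hF hTR h2 h1
  have h3 := LinearMap.finrank_le_finrank_of_injective hg
  rw [Module.finrank_fin_fun] at h3
  omega

end Pool.Agent.H66.VG
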