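import Pool.Agent.H66.VG.Base

/-! Row RL. -/

set_option autoImplicit false

namespace Pool.Agent.H66.VG

open MvPolynomial SC Pool.Agent.H27.LV Pool.Agent.H17.VG

lemma pD_zero {R K : Type} [Field R] [Field K] [Algebra R K] (θ : Derivation R K K) :
    pD θ 0 = 0 := by
  simp [pD]

theorem rl (hRS : T_RS) (hRE : T_RE) (hDC : T_DC) (hET : T_ET) (hPS : T_PS) (hIQ : T_IQ)
    (hJY : T_JY) (hLF : T_LF) : T_RL := by
  intro R K _ _ _ _ n e F D x y w hS hxy hxD hF m hm h2m hw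
  by_contra hcon
  obtain ⟨ξ, h1, h2, h3⟩ := (hLF K n x y hxy).2.2 w hcon
  obtain ⟨-, hfd, hle⟩ := hPS R K n e F D x y hS hxy hF m hm
  have hG : (dir w F).IsHomogeneous e := by
    obtain ⟨-, -, -, -, -, -, -, -, -, -, -, -, h4, -⟩ := hRS K n e F 0 w 0 0 x y 0 0
    exact h4 hS.homog
  have hGr : res x y (dir x (dir w F)) = 0 ∧ res x y (dir y (dir w F)) = 0 := by
    obtain ⟨-, -, -, -, -, -, -, -, -, -, -, -, -, h4⟩ := hRS K n e (dir w F) 0 w 0 0 x y 0 0
    exact h4 hG hw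
  have hdir : ∀ (a b : K) (v v' : Fin (n + 1) → K) (G : MvPolynomial (Fin (n + 1)) K),
      res x y (dir (a • v + b • v') G) =
        Polynomial.C a * res x y (dir v G) + Polynomial.C b * res x y (dir v' G) := by
    intro a b v v' G
    obtain ⟨-, -, -, -, -, -, h4, -⟩ := hRS K n e G 0 v v' 0 x y a b
    obtain ⟨h5, -⟩ := hRS K n e (C a * dir v G) (C b * dir v' G) 0 0 0 x y a b
    obtain ⟨-, h6, h7, -⟩ := hRS K n e (C a) (dir v G) 0 0 0 x y a b
    obtain ⟨-, h8, h9, -⟩ := hRS K n e (C b) (dir v' G) 0 0 0 x y b b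
    rw [h4, h5, h6, h7, h8, h9]
  have h := hIQ R K n e F D x y ξ hS hxy hxD h1 h2 (Yl (R := R) e F x y (Ut R F x (Il e x y))) hfd
    (by
      intro Q hQ τ a hτ hτx
      have hy := hET R K n e F D x y ξ hS hxy hxD hF m hm h2m h1 h2 Q τ a hQ hτ hτx
      obtain ⟨b, c, hbc⟩ := Submodule.mem_span_pair.1 hy
      have e1 := hRE R K n τ (dir w F) x y
      rw [hw, pD_zero] at e1
      have e2 : res x y (dir (opV τ x) (dir w F)) = 0 := by
        have := hdir a 0 x x (dir w F)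
        rw [zero_smul, add_zero, hGr.1, mul_zero, mul_zero, add_zero] at this
        rw [hτx, this]
      have e3 : res x y (dir (opV τ y) (dir w F)) = 0 := by
        have := hdir b c x y (dir w F)
        rw [hGr.1, hGr.2, mul_zero, mul_zero, add_zero] at this
        rw [← hbc, this]
      rw [e2, e3, mul_zero, add_zero, add_zero, hDC] at e1
      obtain ⟨e4, -⟩ := hRS K n e (dir w (opF τ F)) (dir (opV τ w) F) 0 0 0 x y 0 0
      rw [e4, hτ] at e1
      have e5 : res x y (dir w (lin ξ * Q)) = res x y Q := by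
        obtain ⟨-, -, -, -, f5, f6, -⟩ := hRS K n e (lin ξ) Q w 0 ξ x y 0 0
        obtain ⟨a1, -, -, -, -⟩ := hRS K n e (dir w (lin ξ) * Q) (lin ξ * dir w Q) w 0 ξ x y 0 0
        obtain ⟨-, b2, b3, -, -⟩ := hRS K n e (dir w (lin ξ)) Q w 0 ξ x y (∑ i, ξ i * w i) 0
        obtain ⟨-, c2, -, c4, -⟩ := hRS K n e (lin ξ) (dir w Q) w 0 ξ x y 0 0
        rw [f5, a1, b2, c2, c4, h1, h2, f6, b3, h3]
        simp
      rw [e5] at e1
      have e6 : res x y Q = - res x y (dir (opV τ w) F) := by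
        rw [eq_neg_iff_add_eq_zero]; exact e1.symm
      rw [e6]
      exact Submodule.neg_mem _ (hJY R K n e F D x y (opV τ w) hS hxy))
  omega

end Pool.Agent.H66.VG
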