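import Pool.Agent.H17.VG.TargetsG

/-! Row SO: the generic hypersurface is smooth. -/

set_option autoImplicit false

namespace Pool.Agent.H66.VG

open MvPolynomial SC Pool.Agent.H27.LV Pool.Agent.H17.VG

lemma der_eval_map {R k : Type} [Field R] [Field k] [Algebra R k] {m : ℕ} (D : Derivation R k k)
    (z : Fin m → k) (p : MvPolynomial (Fin m) R) :
    D (aeval z p) = ∑ j, aeval z (pderiv j p) * D (z j) := by
  induction p using MvPolynomial.induction_on with
  | C a => simp
  | add p q hp hq =>
    simp only [map_add, hp, hq, add_mul, Finset.sum_add_distrib]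
  | mul_X p i hp =>
    simp only [map_mul, aeval_X, Derivation.leibniz, hp, smul_eq_mul, pderiv_X, map_add,
      add_mul, Finset.sum_add_distrib, Finset.mul_sum]
    congr 1
    · rw [Finset.sum_eq_single i]
      · simp
      · intro j _ hj
        rw [Pi.single_eq_of_ne hj.symm]
        simp
      · simp
    · refine Finset.sum_congr rfl (fun j _ => ?_)
      ring

theorem so (hG2 : T_G2) : T_SO := by
  classical
  intro k _ _ n e c hc z hz
  by_contra hcon
  push Not at hcon
  obtain ⟨i, hi⟩ := Function.ne_iff.1 hz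
  have hi' : z i ≠ 0 := hi
  let M0 : Mon (n + 1) (e + 1) := ⟨Pi.single i (e + 1), by simp⟩
  obtain ⟨D, hD⟩ := hG2 k _ c hc (fun M => if M = M0 then 1 else 0)
  have hev : ∀ M : Mon (n + 1) (e + 1), eval z (mono k M.1) = aeval z (mono ℚ M.1) := by
    intro M
    rw [eval_mono]
    unfold mono
    rw [aeval_monomial]
    simp only [map_one, one_mul]
    rw [Finsupp.prod_fintype _ _ (fun i => pow_zero _)]
    rfl
  have hpd : ∀ (M : Mon (n + 1) (e + 1)) (j : Fin (n + 1)),
      eval z (pderiv j (mono k M.1)) = aeval z (pderiv j (mono ℚ M.1)) := by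
    intro M j
    unfold mono
    rw [pderiv_monomial, pderiv_monomial, aeval_monomial, eval_monomial]
    simp
  have hF0 : eval z (frm c) = 0 := by
    have h1 := (frm_homog c).sum_X_mul_pderiv
    have h2 := congrArg (eval z) h1
    simp only [map_sum, map_mul, eval_X, hcon, mul_zero, Finset.sum_const_zero, map_nsmul] at h2
    rw [nsmul_eq_mul, eq_comm, mul_eq_zero] at h2
    rcases h2 with h2 | h2
    · exact absurd h2 (by exact_mod_cast Nat.succ_ne_zero e)
    · exact h2
  have h3 : eval z (frm c) = ∑ M, c M * aeval z (mono ℚ M.1) := by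
    unfold frm
    rw [map_sum]
    refine Finset.sum_congr rfl (fun M _ => ?_)
    rw [map_mul, eval_C, hev]
  have h4 : ∀ j, eval z (pderiv j (frm c)) = ∑ M, c M * aeval z (pderiv j (mono ℚ M.1)) := by
    intro j
    unfold frm
    rw [map_sum, map_sum]
    refine Finset.sum_congr rfl (fun M _ => ?_)
    rw [pderiv_C_mul, map_mul, eval_C, hpd]
  have h5 : D (eval z (frm c)) = z i ^ (e + 1) := by
    rw [h3, map_sum]
    have h6 : ∀ M : Mon (n + 1) (e + 1), D (c M * aeval z (mono ℚ M.1)) =
        (if M = M0 then aeval z (mono ℚ M.1) else 0) +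
          ∑ j, (c M * aeval z (pderiv j (mono ℚ M.1))) * D (z j) := by
      intro M
      rw [Derivation.leibniz, der_eval_map, hD, smul_eq_mul, smul_eq_mul, Finset.mul_sum, add_comm]
      congr 1
      · split_ifs <;> simp
      · exact Finset.sum_congr rfl (fun j _ => by ring)
    rw [Finset.sum_congr rfl (fun M _ => h6 M), Finset.sum_add_distrib, Finset.sum_comm]
    have h7 : ∀ j, ∑ M, (c M * aeval z (pderiv j (mono ℚ M.1))) * D (z j) = 0 := by
      intro j
      rw [← Finset.sum_mul, ← h4, hcon j, zero_mul]
    rw [Finset.sum_congr rfl (fun j _ => h7 j), Finset.sum_const_zero, add_zero,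
      Finset.sum_ite_eq' Finset.univ M0]
    simp only [Finset.mem_univ, if_true]
    rw [← hev, eval_mono]
    rw [Finset.prod_eq_single i]
    · simp [M0]
    · intro j _ hj
      simp [M0, Pi.single_eq_of_ne hj]
    · simp
  rw [hF0, map_zero] at h5
  exact pow_ne_zero _ hi' h5.symm

end Pool.Agent.H66.VG
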