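import Pool.Agent.H17.VG.TargetsB
import Pool.Agent.H17.VG.TargetsC

/-! Row TP. -/

set_option autoImplicit false

namespace Pool.Agent.H66.VG

open MvPolynomial SC Pool.Agent.H27.LV Pool.Agent.H17.VG

theorem tp (hIP : T_IP) (hSU : T_SU) (hOP : T_OP) : T_TP := by
  intro R K _ _ _ _ n e F D x hS hF
  rw [eq_top_iff]
  rintro w -
  obtain ⟨τ, c, h1, h2⟩ := hSU R K n e F x hS.homog hF w
  have hx : x ≠ 0 := by
    rintro rfl
    apply hF
    have h3 : eval (0 : Fin (n + 1) → K) F = coeff 0 F := by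
      rw [← MvPolynomial.constantCoeff_eq]
      simp
    rw [h3]
    exact hS.homog.coeff_eq_zero (by simp)
  have hG : (opF τ F).IsHomogeneous (e + 1) := (hOP R K n (e + 1) τ 0 F F 0 0 0).2.2.2.2 hS.homog
  have h3 := hIP K n e x hx _ hG h1
  have h4 : (opF τ F) ∈ Submodule.span K {G | ∃ (ξ : Fin (n + 1) → K) (q : Mon (n + 1) e → K),
      ∑ i, ξ i * x i = 0 ∧ G = lin ξ * frm q} := by
    refine Submodule.span_mono ?_ h3
    rintro G ⟨ξ, Q, h5, h6, rfl⟩
    exact ⟨ξ, _, h5, by rw [frm_coeff h6]⟩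
  have h5 : opV τ x ∈ Ut R F x (Submodule.span K {G | ∃ (ξ : Fin (n + 1) → K)
      (q : Mon (n + 1) e → K), ∑ i, ξ i * x i = 0 ∧ G = lin ξ * frm q}) :=
    Submodule.subset_span (Or.inl ⟨τ, h4, rfl⟩)
  have h6 : x ∈ Ut R F x (Submodule.span K {G | ∃ (ξ : Fin (n + 1) → K)
      (q : Mon (n + 1) e → K), ∑ i, ξ i * x i = 0 ∧ G = lin ξ * frm q}) :=
    Submodule.subset_span (Or.inr rfl)
  have h7 : w = opV τ x - c • x := by rw [h2]; simp
  rw [h7]
  exact Submodule.sub_mem _ h5 (Submodule.smul_mem _ _ h6)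

end Pool.Agent.H66.VG
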